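import Mathlib

set_option autoImplicit false

namespace Pool.Agent.Work.MP_07fa45_al

open Real Polynomial.Chebyshev

/-! ### The geometric representation and the order of a product of two simple reflections -/

variable {B : Type*} (M : CoxeterMatrix B)

/-- the entries `f_i(α_j)` -/
noncomputable def kk (i j : B) : ℝ := if M i j = 0 then -2 else -2 * cos (π / M i j)

theorem kk_self (i : B) : kk M i i = 2 := by
  simp [kk]

theorem kk_symm (i j : B) : kk M i j = kk M j i := by
  simp [kk, M.symmetric i j]

/-- the linear form `f_i` -/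
noncomputable def ff (i : B) : Module.Dual ℝ (B →₀ ℝ) := Finsupp.linearCombination ℝ (kk M i)

theorem ff_single (i j : B) : ff M i (Finsupp.single j 1) = kk M i j := by
  simp [ff]

theorem ff_self (i : B) : ff M i (Finsupp.single i 1) = 2 := by
  rw [ff_single, kk_self]

/-- the reflection `r_i` -/
noncomputable def rr (i : B) : (B →₀ ℝ) ≃ₗ[ℝ] (B →₀ ℝ) := Module.reflection (ff_self M i)

theorem rr_pow_eq_one (i j : B) : (rr M i * rr M j) ^ (M i j) = 1 := by
  by_cases h0 : M i j = 0
  · rw [h0, pow_zero]
  by_cases hij : i = j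
  · subst hij
    have hinv : rr M i * rr M i = 1 := by
      ext1 z
      exact Module.involutive_reflection (ff_self M i) z
    rw [M.diagonal, pow_one, hinv]
  have h1 : M i j ≠ 1 := fun h => hij ((M.off_diagonal i j).mt (by simpa using h) |> fun h' => by
    by_contra hne; exact h' hne)
  by_cases h2 : M i j = 2
  · -- commuting reflections
    have hk : kk M i j = 0 := by simp [kk, h2]
    have hk' : kk M j i = 0 := by rw [kk_symm, hk]
    have hi : ∀ z, rr M i (rr M i z) = z := Module.involutive_reflection (ff_self M i)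
    have hj : ∀ z, rr M j (rr M j z) = z := Module.involutive_reflection (ff_self M j)
    have hc : rr M i * rr M j = rr M j * rr M i := by
      ext1 z
      show rr M i (rr M j z) = rr M j (rr M i z)
      simp only [rr, Module.reflection_apply, map_sub, map_smul, ff_single, hk, hk']
      module
    rw [h2, pow_two, mul_assoc, ← mul_assoc (rr M j), ← hc]
    ext1 z
    show rr M i (rr M i (rr M j (rr M j z))) = z
    rw [hj, hi]
  -- main case m ≥ 3
  set m := M i j with hm
  have hm3 : 3 ≤ m := by omega
  have hmR : (m : ℝ) ≠ 0 := by positivity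
  set φ := 2 * π / m with hφ
  have hk : kk M i j = -2 * cos (π / m) := by simp [kk, h0, ← hm]
  have hk' : kk M j i = -2 * cos (π / m) := by rw [kk_symm, hk]
  have ht : ff M i (Finsupp.single j 1) * ff M j (Finsupp.single i 1) - 2 = 2 * cos φ := by
    rw [ff_single, ff_single, hk, hk']
    have : φ = 2 * (π / m) := by rw [hφ]; ring
    rw [this, cos_two_mul]
    ring
  have hsin : sin φ ≠ 0 := by
    apply ne_of_gt
    apply sin_pos_of_pos_of_lt_pi
    · positivity
    · rw [hφ, div_lt_iff₀ (by positivity)]
      have : (3 : ℝ) ≤ m := by exact_mod_cast hm3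
      nlinarith [pi_pos]
  have hS : ∀ k : ℤ, (S ℝ k).eval (2 * cos φ) = sin ((k + 1) * φ) / sin φ := by
    intro k
    rw [eq_div_iff hsin, S_two_mul_real_cos]
  ext1 z
  show ((Module.reflection (ff_self M i) * Module.reflection (ff_self M j)) ^ m) z = z
  rw [Module.reflection_mul_reflection_pow_apply (ff_self M i) (ff_self M j) m z (2 * cos φ) ht.symm]
  rcases Nat.even_or_odd' m with ⟨k, hk | hk⟩
  · -- even
    have e1 : ((m : ℤ) - 2) / 2 = k - 1 := by omega
    have e2 : ((m : ℤ) - 1) / 2 = k - 1 := by omega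
    have hz : (S ℝ ((k : ℤ) - 1)).eval (2 * cos φ) = 0 := by
      rw [hS]
      have : ((((k : ℤ) - 1 : ℤ) : ℝ) + 1) * φ = π := by
        rw [hφ]
        push_cast
        have : (m : ℝ) = 2 * k := by exact_mod_cast hk
        rw [this]
        have hk0 : (k : ℝ) ≠ 0 := by
          intro h
          rw [h, mul_zero] at this
          exact hmR this
        field_simp
        ring
      rw [this, sin_pi, zero_div]
    rw [e1, e2, hz]
    simp
  · have e1 : ((m : ℤ) - 1) / 2 = k := by omega
    have e2 : ((m : ℤ) - 3) / 2 = k - 1 := by omega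
    have e3 : (m : ℤ) / 2 = k := by omega
    have e4 : ((m : ℤ) - 2) / 2 = k - 1 := by omega
    have hz : (S ℝ (k : ℤ)).eval (2 * cos φ) + (S ℝ ((k : ℤ) - 1)).eval (2 * cos φ) = 0 := by
      rw [hS, hS, ← add_div]
      have h1 : sin ((((k : ℤ) : ℝ) + 1) * φ) = - sin (((((k : ℤ) - 1 : ℤ) : ℝ) + 1) * φ) := by
        have h2 : ((((k : ℤ) : ℝ) + 1) * φ) = 2 * π - ((((k : ℤ) - 1 : ℤ) : ℝ) + 1) * φ := by
          rw [hφ]
          push_cast
          have : (m : ℝ) = 2 * k + 1 := by exact_mod_cast hk
          rw [this]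
          have hk0 : (2 * (k : ℝ) + 1) ≠ 0 := by positivity
          field_simp
          ring
        rw [h2, sin_two_pi_sub]
      rw [h1]
      simp
    rw [e1, e2, e3, e4, hz]
    simp

theorem isLiftable_rr : M.IsLiftable (rr M) := fun i j => rr_pow_eq_one M i j


theorem rr_pow_ne_one {i j : B} (hij : i ≠ j) (h0 : M i j ≠ 0) {k : ℕ} (hk0 : 0 < k)
    (hkm : k < M i j) : (rr M i * rr M j) ^ k ≠ 1 := by
  intro hone
  have h1 := congrArg (fun T : (B →₀ ℝ) ≃ₗ[ℝ] (B →₀ ℝ) => T (Finsupp.single i 1)) hone
  have h2 : ((Module.reflection (ff_self M i) * Module.reflection (ff_self M j)) ^ k)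
      (Finsupp.single i 1) = Finsupp.single i 1 := h1
  rw [Module.reflection_mul_reflection_pow_apply_self (ff_self M i) (ff_self M j) k] at h2
  rw [ff_single, ff_single] at h2
  have hi := congrArg (fun v : B →₀ ℝ => v i) h2
  have hj := congrArg (fun v : B →₀ ℝ => v j) h2
  simp only [Finsupp.add_apply, Finsupp.smul_apply, Finsupp.single_eq_same, smul_eq_mul, mul_one,
    Finsupp.single_eq_of_ne hij, Finsupp.single_eq_of_ne hij.symm, mul_zero, add_zero,
    zero_add] at hi hj
  by_cases h2' : M i j = 2
  · have hk1 : k = 1 := by omega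
    have hk : kk M i j = 0 := by simp [kk, h2']
    rw [hk1, hk] at hi
    simp at hi
  set m := M i j with hm
  have hm3 : 3 ≤ m := by
    have : m ≠ 1 := by
      intro h
      omega
    omega
  have hmR : (m : ℝ) ≠ 0 := by positivity
  set φ := 2 * π / m with hφ
  have hk : kk M i j = -2 * cos (π / m) := by simp [kk, h0, ← hm]
  have hk' : kk M j i = -2 * cos (π / m) := by rw [kk_symm, hk]
  have ht : kk M i j * kk M j i - 2 = 2 * cos φ := by
    rw [hk, hk']
    have : φ = 2 * (π / m) := by rw [hφ]; ring
    rw [this, cos_two_mul]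
    ring
  have hsin : sin φ ≠ 0 := by
    apply ne_of_gt
    apply sin_pos_of_pos_of_lt_pi
    · positivity
    · rw [hφ, div_lt_iff₀ (by positivity)]
      have : (3 : ℝ) ≤ m := by exact_mod_cast hm3
      nlinarith [pi_pos]
  have hS : ∀ k : ℤ, (S ℝ k).eval (2 * cos φ) = sin ((k + 1) * φ) / sin φ := by
    intro k
    rw [eq_div_iff hsin, S_two_mul_real_cos]
  have hcos : cos (π / m) ≠ 0 := by
    apply ne_of_gt
    apply cos_pos_of_mem_Ioo
    constructor
    · have : 0 < π / m := by positivity
      linarith [pi_pos]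
    · rw [div_lt_iff₀ (by positivity)]
      have : (3 : ℝ) ≤ m := by exact_mod_cast hm3
      nlinarith [pi_pos]
  rw [ht, hS, hk'] at hj
  rw [ht, hS, hS] at hi
  have hsk : sin (k * φ) = 0 := by
    have h3 : (((k : ℤ) - 1 : ℤ) : ℝ) + 1 = k := by push_cast; ring
    rw [h3] at hj
    rcases mul_eq_zero.mp hj with h | h
    · rcases div_eq_zero_iff.mp h with h | h
      · exact h
      · exact absurd h hsin
    · exfalso
      apply hcos
      linarith
  have hkφ : k * φ = π := by
    have h3 : 0 < k * φ := by positivity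
    have h4 : k * φ < 2 * π := by
      rw [hφ]
      have : (k : ℝ) < m := by exact_mod_cast hkm
      rw [mul_div_assoc', div_lt_iff₀ (by positivity)]
      nlinarith [pi_pos]
    rw [sin_eq_zero_iff] at hsk
    obtain ⟨n, hn⟩ := hsk
    have hn1 : n = 1 := by
      have h5 : (0 : ℝ) < n := by
        rw [← hn] at h3
        exact (pos_iff_pos_of_mul_pos h3).mpr pi_pos
      have h6 : (n : ℝ) < 2 := by
        rw [← hn] at h4
        exact lt_of_mul_lt_mul_right h4 pi_pos.le
      have h7 : 0 < n := by exact_mod_cast h5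
      have h8 : n < 2 := by exact_mod_cast h6
      omega
    rw [← hn, hn1]
    simp
  have h3 : (((k : ℤ) - 1 : ℤ) : ℝ) + 1 = k := by push_cast; ring
  rw [h3, hsk] at hi
  have h4 : (((k : ℤ) : ℝ) + 1) * φ = φ + π := by
    push_cast
    rw [add_mul, hkφ]
    ring
  rw [h4, sin_add_pi, neg_div, div_self hsin] at hi
  norm_num at hi

section system

variable {W : Type*} [Group W] {M : CoxeterMatrix B} (cs : CoxeterSystem M W)

/-- the product of two simple reflections has order exactly `M i j` -/
theorem simple_mul_simple_pow_ne_one {i j : B} (hij : i ≠ j) (h0 : M i j ≠ 0) {k : ℕ}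
    (hk0 : 0 < k) (hkm : k < M i j) : (cs.simple i * cs.simple j) ^ k ≠ 1 := by
  intro h
  have h1 := congrArg (cs.lift ⟨rr M, isLiftable_rr M⟩) h
  rw [map_pow, map_mul, map_one, cs.lift_apply_simple, cs.lift_apply_simple] at h1
  exact rr_pow_ne_one M hij h0 hk0 hkm h1

end system

end Pool.Agent.Work.MP_07fa45_al
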