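import Mathlib
import Pool.Agent.Work.MP_07fa45_al.Geom

set_option autoImplicit false

namespace Pool.Agent.Work.MP_07fa45_al

open Finset

variable {B W : Type*} [Group W] {M : CoxeterMatrix B} (cs : CoxeterSystem M W)

open Classical in
/-- the permutation of `W × ZMod 2` attached to a simple reflection -/
noncomputable def sig (i : B) : Equiv.Perm (W × ZMod 2) :=
  Function.Involutive.toPerm
    (fun p => (cs.simple i * p.1 * cs.simple i, p.2 + if p.1 = cs.simple i then 1 else 0)) (by
      rintro ⟨x, e⟩
      have h1 : cs.simple i * (cs.simple i * x * cs.simple i) * cs.simple i = x := by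
        have := cs.simple_mul_simple_self i
        calc cs.simple i * (cs.simple i * x * cs.simple i) * cs.simple i
            = (cs.simple i * cs.simple i) * x * (cs.simple i * cs.simple i) := by group
          _ = x := by rw [this]; group
      have h2 : (cs.simple i * x * cs.simple i = cs.simple i) ↔ x = cs.simple i := by
        constructor
        · intro h
          rw [h, cs.simple_mul_simple_self] at h1
          rw [← h1, one_mul]
        · intro h
          rw [h, cs.simple_mul_simple_self, one_mul]
      simp only [h2]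
      refine Prod.ext h1 ?_
      show e + _ + _ = e
      have : ∀ a : ZMod 2, a + a = 0 := by decide
      rw [add_assoc, this, add_zero])

open Classical in
theorem sig_apply (i : B) (x : W) (e : ZMod 2) : sig cs i (x, e) =
    (cs.simple i * x * cs.simple i, e + if x = cs.simple i then 1 else 0) := rfl

theorem zmod2_add_self (a : ZMod 2) : a + a = 0 := by
  revert a; decide

open Classical in
theorem sig_mul_pow (i j : B) (k : ℕ) (x : W) (e : ZMod 2) :
    ((sig cs i * sig cs j) ^ k) (x, e) =
      ((cs.simple i * cs.simple j) ^ k * x * ((cs.simple i * cs.simple j) ^ k)⁻¹,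
        e + ∑ l ∈ range (2 * k),
          if x = ((cs.simple i * cs.simple j) ^ l)⁻¹ * cs.simple j then 1 else 0) := by
  set a := cs.simple i with ha
  set b := cs.simple j with hb
  have haa : a * a = 1 := cs.simple_mul_simple_self i
  have hbb : b * b = 1 := cs.simple_mul_simple_self j
  have hainv : a⁻¹ = a := cs.inv_simple i
  have hbinv : b⁻¹ = b := cs.inv_simple j
  -- b g^k = g^{-k} b
  have hbg : ∀ k : ℕ, b * (a * b) ^ k = ((a * b) ^ k)⁻¹ * b := by
    intro k
    induction k with
    | zero => simp
    | succ k ih =>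
      calc b * (a * b) ^ (k + 1) = (b * (a * b) ^ k) * (a * b) := by rw [pow_succ]; group
        _ = ((a * b) ^ k)⁻¹ * (b * a) * b := by rw [ih]; group
        _ = ((a * b) ^ k)⁻¹ * (a * b)⁻¹ * b := by rw [mul_inv_rev a b, hainv, hbinv]
        _ = ((a * b) ^ (k + 1))⁻¹ * b := by rw [pow_succ', mul_inv_rev (a * b) ((a * b) ^ k)]
  induction k with
  | zero => simp
  | succ k ih =>
    rw [pow_succ', Equiv.Perm.mul_apply, ih, Equiv.Perm.mul_apply, sig_apply, sig_apply]
    set y := (a * b) ^ k * x * ((a * b) ^ k)⁻¹ with hy
    refine Prod.ext ?_ ?_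
    · show a * (b * y * b) * a = _
      rw [hy, pow_succ', mul_inv_rev, mul_inv_rev, hainv, hbinv]
      group
    · show (e + _ + _) + _ = _
      have e1 : (y = b) ↔ x = ((a * b) ^ (2 * k))⁻¹ * b := by
        have h1 : (y = b) ↔ x = ((a * b) ^ k)⁻¹ * (b * (a * b) ^ k) := by
          rw [hy]
          constructor
          · intro h
            calc x = ((a * b) ^ k)⁻¹ * ((a * b) ^ k * x * ((a * b) ^ k)⁻¹) * (a * b) ^ k := by group
              _ = _ := by rw [h]; group
          · intro h
            rw [h]; group
        rw [h1, hbg, two_mul, pow_add, mul_inv_rev, mul_assoc]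
      have e2 : (b * y * b = a) ↔ x = ((a * b) ^ (2 * k + 1))⁻¹ * b := by
        have h1 : (b * y * b = a) ↔ y = (a * b)⁻¹ * b := by
          rw [mul_inv_rev, hainv, hbinv]
          constructor
          · intro h
            rw [← h]
            calc y = (b * b) * y * (b * b) := by rw [hbb]; group
              _ = _ := by group
          · intro h
            rw [h]
            calc b * (b * a * b) * b = (b * b) * a * (b * b) := by group
              _ = a := by rw [hbb]; group
        have h2 : (y = (a * b)⁻¹ * b) ↔ x = ((a * b) ^ k)⁻¹ * (a * b)⁻¹ * (b * (a * b) ^ k) := by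
          rw [hy]
          constructor
          · intro h
            calc x = ((a * b) ^ k)⁻¹ * ((a * b) ^ k * x * ((a * b) ^ k)⁻¹) * (a * b) ^ k := by group
              _ = _ := by rw [h]; group
          · intro h
            rw [h]; group
        rw [h1, h2, hbg]
        have h3 : ((a * b) ^ k)⁻¹ * (a * b)⁻¹ * (((a * b) ^ k)⁻¹ * b) =
            ((a * b) ^ (2 * k + 1))⁻¹ * b := by
          rw [← mul_assoc]
          congr 1
          rw [← mul_inv_rev, ← mul_inv_rev, ← pow_succ', ← pow_add]
          congr 2
          omega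
        rw [h3]
      rw [show 2 * (k + 1) = 2 * k + 1 + 1 by ring, sum_range_succ, sum_range_succ]
      rw [← ha, ← hb]
      simp only [e1, e2]
      ring

theorem sig_liftable : M.IsLiftable (sig cs) := by
  classical
  intro i j
  apply Equiv.ext
  rintro ⟨x, e⟩
  rw [sig_mul_pow, cs.simple_mul_simple_pow]
  refine Prod.ext (by simp) ?_
  show e + _ = e
  rw [two_mul, sum_range_add]
  have : ∀ l, ((cs.simple i * cs.simple j) ^ (M i j + l))⁻¹ = ((cs.simple i * cs.simple j) ^ l)⁻¹ := by
    intro l
    rw [pow_add, cs.simple_mul_simple_pow, one_mul]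
  simp only [this]
  rw [zmod2_add_self, add_zero]

/-- the action of `W` on `W × ZMod 2` -/
noncomputable def Phi : W →* Equiv.Perm (W × ZMod 2) := cs.lift ⟨sig cs, sig_liftable cs⟩

theorem Phi_simple (i : B) : Phi cs (cs.simple i) = sig cs i := cs.lift_apply_simple _ _

/-- parity: `eta w x = 1` iff `x` is a right inversion of `w` -/
noncomputable def eta (w x : W) : ZMod 2 := (Phi cs w (x, 0)).2

theorem Phi_apply (w x : W) (e : ZMod 2) : Phi cs w (x, e) = (w * x * w⁻¹, e + eta cs w x) := by
  classical
  revert x e
  refine cs.simple_induction (p := fun w => ∀ x e,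
    Phi cs w (x, e) = (w * x * w⁻¹, e + eta cs w x)) w ?_ ?_ ?_
  · intro i x e
    simp only [eta, Phi_simple, sig_apply, cs.inv_simple, zero_add]
  · intro x e
    simp [eta]
  · intro g h hg hh x e
    have h1 : ∀ e, Phi cs (g * h) (x, e) =
        (g * h * x * (g * h)⁻¹, e + (eta cs h x + eta cs g (h * x * h⁻¹))) := by
      intro e
      rw [map_mul, Equiv.Perm.mul_apply, hh, hg]
      refine Prod.ext ?_ ?_
      · show g * (h * x * h⁻¹) * g⁻¹ = _
        group
      · show e + _ + _ = _
        rw [add_assoc]
    have h2 : eta cs (g * h) x = eta cs h x + eta cs g (h * x * h⁻¹) := by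
      rw [eta, h1, zero_add]
    rw [h1, h2]

theorem eta_one (x : W) : eta cs 1 x = 0 := by simp [eta]

theorem eta_mul (g h x : W) : eta cs (g * h) x = eta cs h x + eta cs g (h * x * h⁻¹) := by
  rw [eta, map_mul, Equiv.Perm.mul_apply, Phi_apply, Phi_apply, zero_add]

open Classical in
theorem eta_simple (i : B) (x : W) : eta cs (cs.simple i) x = if x = cs.simple i then 1 else 0 := by
  rw [eta, Phi_simple, sig_apply, zero_add]

theorem eta_inv (g x : W) : eta cs g⁻¹ x = eta cs g (g⁻¹ * x * g) := by
  have h := eta_mul cs g g⁻¹ x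
  rw [mul_inv_cancel, eta_one, inv_inv] at h
  have h2 := zmod2_add_self (eta cs g (g⁻¹ * x * g))
  exact add_right_cancel (h.symm.trans h2.symm)

open Classical in
theorem eta_wordProd (ω : List B) (x : W) :
    eta cs (cs.wordProd ω) x = ((cs.rightInvSeq ω).count x : ZMod 2) := by
  induction ω with
  | nil => simp [eta_one]
  | cons i ω ih =>
    rw [cs.wordProd_cons, eta_mul, ih, eta_simple, CoxeterSystem.rightInvSeq, List.count_cons]
    push_cast
    congr 1
    have : (cs.wordProd ω * x * (cs.wordProd ω)⁻¹ = cs.simple i) ↔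
        ((cs.wordProd ω)⁻¹ * cs.simple i * cs.wordProd ω = x) := by
      constructor
      · intro h
        rw [← h]; group
      · intro h
        rw [← h]; group
    simp only [this, beq_iff_eq]

theorem eta_isReflection {w x : W} (h : eta cs w x = 1) : cs.IsReflection x := by
  classical
  obtain ⟨ω, rfl⟩ := cs.wordProd_surjective w
  rw [eta_wordProd] at h
  have : x ∈ cs.rightInvSeq ω := by
    rw [← List.count_pos_iff]
    by_contra hcon
    have : (cs.rightInvSeq ω).count x = 0 := by omega
    rw [this] at h
    simp at h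
  exact cs.isReflection_of_mem_rightInvSeq ω this

theorem length_lt_of_eta {w x : W} (h : eta cs w x = 1) : cs.length (w * x) < cs.length w := by
  classical
  obtain ⟨ω, hω, rfl⟩ := cs.exists_isReduced w
  rw [eta_wordProd] at h
  have : x ∈ cs.rightInvSeq ω := by
    rw [← List.count_pos_iff]
    by_contra hcon
    have : (cs.rightInvSeq ω).count x = 0 := by omega
    rw [this] at h
    simp at h
  exact (cs.isRightInversion_of_mem_rightInvSeq hω this).2

theorem eta_self {t : W} (ht : cs.IsReflection t) : eta cs t t = 1 := by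
  classical
  obtain ⟨g, i, rfl⟩ := ht
  rw [eta_mul, eta_mul]
  have h1 : g⁻¹ * (g * cs.simple i * g⁻¹) * g⁻¹⁻¹ = cs.simple i := by group
  rw [h1, cs.inv_simple, cs.simple_mul_simple_self, one_mul]
  have h2 : eta cs g⁻¹ (g * cs.simple i * g⁻¹) = eta cs g (cs.simple i) := by
    rw [eta_inv]
    congr 1
    group
  rw [h2, eta_simple, if_pos rfl, add_left_comm, zmod2_add_self, add_zero]

theorem zmod2_cases (a : ZMod 2) : a = 0 ∨ a = 1 := by
  revert a; decide

/-- strong exchange -/
theorem eta_eq_one_iff {w t : W} (ht : cs.IsReflection t) :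
    eta cs w t = 1 ↔ cs.length (w * t) < cs.length w := by
  constructor
  · exact length_lt_of_eta cs
  · intro h
    rcases zmod2_cases (eta cs w t) with h0 | h1
    · exfalso
      have h2 : eta cs (w * t) t = 1 := by
        rw [eta_mul, eta_self cs ht]
        have : t * t * t⁻¹ = t := by group
        rw [this, h0, add_zero]
      have h3 := length_lt_of_eta cs h2
      rw [mul_assoc, ht.mul_self, mul_one] at h3
      omega
    · exact h1

/-- the set of right inversions -/
def NN (w : W) : Set W := {x | eta cs w x = 1}

theorem NN_eq_of_isReduced {ω : List B} (hω : cs.IsReduced ω) :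
    NN cs (cs.wordProd ω) = {x | x ∈ cs.rightInvSeq ω} := by
  classical
  ext x
  show eta cs (cs.wordProd ω) x = 1 ↔ x ∈ cs.rightInvSeq ω
  rw [eta_wordProd]
  have hnd := hω.nodup_rightInvSeq
  by_cases h : x ∈ cs.rightInvSeq ω
  · rw [List.count_eq_one_of_mem hnd h]
    simp [h]
  · rw [List.count_eq_zero_of_not_mem h]
    simp [h]

theorem NN_finite (w : W) : (NN cs w).Finite := by
  obtain ⟨ω, hω, rfl⟩ := cs.exists_isReduced w
  rw [NN_eq_of_isReduced cs hω]
  exact List.finite_toSet _

theorem ncard_NN (w : W) : (NN cs w).ncard = cs.length w := by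
  classical
  obtain ⟨ω, hω, rfl⟩ := cs.exists_isReduced w
  rw [NN_eq_of_isReduced cs hω, hω.eq]
  have : {x | x ∈ cs.rightInvSeq ω} = ((cs.rightInvSeq ω).toFinset : Set W) := by
    ext x; simp
  rw [this, Set.ncard_coe_finset, List.toFinset_card_of_nodup hω.nodup_rightInvSeq,
    cs.length_rightInvSeq]

end Pool.Agent.Work.MP_07fa45_al
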