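import Mathlib
import Pool.Agent.Work.MP_07fa45_al.Parity

set_option autoImplicit false

namespace Pool.Agent.Work.MP_07fa45_al

open Subgroup

variable {B W : Type*} [Group W] {M : CoxeterMatrix B} (cs : CoxeterSystem M W)

/-- the subgroup generated by two simple reflections -/
def DD (i j : B) : Subgroup W := closure {cs.simple i, cs.simple j}

theorem left_mem_DD (i j : B) : cs.simple i ∈ DD cs i j := subset_closure (by simp)

theorem right_mem_DD (i j : B) : cs.simple j ∈ DD cs i j := subset_closure (by simp)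

/-- geometric representation -/
noncomputable def geo : W →* ((B →₀ ℝ) ≃ₗ[ℝ] (B →₀ ℝ)) := cs.lift ⟨rr M, isLiftable_rr M⟩

theorem geo_simple (i : B) : geo cs (cs.simple i) = rr M i := cs.lift_apply_simple _ _

theorem geo_mem_span {i j : B} {d : W} (hd : d ∈ DD cs i j) :
    ∀ v, geo cs d v - v ∈ Submodule.span ℝ {Finsupp.single i (1 : ℝ), Finsupp.single j (1 : ℝ)} := by
  have hgen : ∀ (k : B) (v : B →₀ ℝ), geo cs (cs.simple k) v - v ∈
      Submodule.span ℝ {Finsupp.single k (1 : ℝ)} := by
    intro k v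
    rw [geo_simple]
    have : rr M k v - v = -(ff M k v) • Finsupp.single k (1 : ℝ) := by
      simp only [rr, Module.reflection_apply]
      module
    rw [this]
    exact Submodule.smul_mem _ _ (Submodule.mem_span_singleton_self _)
  induction hd using closure_induction with
  | mem x hx =>
    intro v
    rcases hx with rfl | hx
    · exact Submodule.span_mono (by simp) (hgen i v)
    · rw [Set.mem_singleton_iff] at hx
      subst hx
      exact Submodule.span_mono (by simp) (hgen j v)
  | one =>
    intro v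
    simp
  | mul x y _ _ hx hy =>
    intro v
    have : geo cs (x * y) v - v = (geo cs x (geo cs y v) - geo cs y v) + (geo cs y v - v) := by
      rw [map_mul, LinearEquiv.mul_apply]
      abel
    rw [this]
    exact Submodule.add_mem _ (hx _) (hy _)
  | inv x _ hx =>
    intro v
    have h1 := hx (geo cs x⁻¹ v)
    have h2 : geo cs x (geo cs x⁻¹ v) = v := by
      rw [← LinearEquiv.mul_apply, ← map_mul]
      simp
    rw [h2] at h1
    rw [← neg_sub]
    exact Submodule.neg_mem _ h1

theorem simple_mem_DD {i j k : B} (h : cs.simple k ∈ DD cs i j) : k = i ∨ k = j := by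
  by_contra hcon
  push Not at hcon
  have h1 := geo_mem_span cs h (Finsupp.single k 1)
  rw [geo_simple, rr, Module.reflection_apply_self] at h1
  have h2 : Submodule.span ℝ {Finsupp.single i (1 : ℝ), Finsupp.single j (1 : ℝ)} ≤
      LinearMap.ker (Finsupp.lapply k : (B →₀ ℝ) →ₗ[ℝ] ℝ) := by
    rw [Submodule.span_le]
    rintro x (rfl | hx)
    · simp [Finsupp.single_eq_of_ne hcon.1]
    · rw [Set.mem_singleton_iff] at hx
      subst hx
      simp [Finsupp.single_eq_of_ne hcon.2]
  have h3 := h2 h1
  rw [LinearMap.mem_ker] at h3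
  simp at h3
  norm_num at h3

theorem simple_injective {i j : B} (h : cs.simple i = cs.simple j) : i = j := by
  have h1 : cs.simple j ∈ DD cs i i := h ▸ left_mem_DD cs i i
  rcases simple_mem_DD cs h1 with h | h <;> exact h.symm

theorem NN_subset_DD {i j : B} {d : W} (hd : d ∈ DD cs i j) :
    ∀ x, eta cs d x = 1 → x ∈ DD cs i j := by
  classical
  induction hd using closure_induction with
  | mem x hx =>
    intro t ht
    rcases hx with rfl | hx
    · rw [eta_simple] at ht
      split_ifs at ht with h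
      · rw [h]; exact left_mem_DD cs i j
      · exact absurd ht (by decide)
    · rw [Set.mem_singleton_iff] at hx
      subst hx
      rw [eta_simple] at ht
      split_ifs at ht with h
      · rw [h]; exact right_mem_DD cs i j
      · exact absurd ht (by decide)
  | one =>
    intro t ht
    rw [eta_one] at ht
    exact absurd ht (by decide)
  | mul x y hx' hy' hx hy =>
    intro t ht
    have hy'' : y ∈ DD cs i j := hy'
    rw [eta_mul] at ht
    rcases zmod2_cases (eta cs y t) with h | h
    · rw [h, zero_add] at ht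
      have h1 := hx _ ht
      have h2 : t = y⁻¹ * (y * t * y⁻¹) * y := by group
      rw [h2]
      exact mul_mem (mul_mem (inv_mem hy'') h1) hy''
    · exact hy _ h
  | inv x hx' hx =>
    intro t ht
    have hx'' : x ∈ DD cs i j := hx'
    rw [eta_inv] at ht
    have h1 := hx _ ht
    have h2 : t = x * (x⁻¹ * t * x) * x⁻¹ := by group
    rw [h2]
    exact mul_mem (mul_mem hx'' h1) (inv_mem hx'')

/-- `w` has minimal length in the coset `DD i j * w` -/
def IsMin (i j : B) (w : W) : Prop := ∀ d ∈ DD cs i j, cs.length w ≤ cs.length (d * w)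

theorem exists_isMin (i j : B) (w : W) : ∃ d ∈ DD cs i j, IsMin cs i j (d * w) := by
  classical
  have hex : ∃ n, ∃ d ∈ DD cs i j, cs.length (d * w) = n := ⟨_, 1, one_mem _, rfl⟩
  obtain ⟨d, hd, hlen⟩ := Nat.find_spec hex
  refine ⟨d, hd, fun e he => ?_⟩
  rw [hlen]
  exact Nat.find_min' hex ⟨e * d, mul_mem he hd, by rw [mul_assoc]⟩

theorem eta_of_isMin {i j : B} {w : W} (hw : IsMin cs i j w) {t : W} (ht : t ∈ DD cs i j)
    (htr : cs.IsReflection t) : eta cs w (w⁻¹ * t * w) = 0 := by
  rcases zmod2_cases (eta cs w (w⁻¹ * t * w)) with h | h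
  · exact h
  · exfalso
    have h1 := length_lt_of_eta cs h
    have h2 : w * (w⁻¹ * t * w) = t * w := by group
    rw [h2] at h1
    exact absurd (hw t ht) (not_le.mpr h1)

theorem eq_simple_of_NN {i j : B} {d : W} (hd : d ∈ DD cs i j) (h1 : d ≠ 1)
    (h : cs.length d ≤ 1) : d = cs.simple i ∨ d = cs.simple j := by
  have h2 : cs.length d = 1 := by
    have : cs.length d ≠ 0 := fun h0 => h1 (cs.length_eq_zero_iff.mp h0)
    omega
  obtain ⟨k, rfl⟩ := cs.length_eq_one_iff.mp h2
  rcases simple_mem_DD cs hd with rfl | rfl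
  · exact Or.inl rfl
  · exact Or.inr rfl

theorem canon_unique {i j i' j' : B} (hij' : i' ≠ j') {w w' : W}
    (hw : IsMin cs i j w) (hw' : IsMin cs i' j' w')
    (hu : w * (w'⁻¹ * cs.simple i' * w') * w⁻¹ ∈ DD cs i j)
    (hv : w * (w'⁻¹ * cs.simple j' * w') * w⁻¹ ∈ DD cs i j) :
    (w'⁻¹ * cs.simple i' * w' = w⁻¹ * cs.simple i * w ∧
      w'⁻¹ * cs.simple j' * w' = w⁻¹ * cs.simple j * w) ∨
    (w'⁻¹ * cs.simple i' * w' = w⁻¹ * cs.simple j * w ∧
      w'⁻¹ * cs.simple j' * w' = w⁻¹ * cs.simple i * w) := by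
  classical
  set x := w * w'⁻¹ with hx
  have hxD : ∀ d ∈ DD cs i' j', x * d * x⁻¹ ∈ DD cs i j := by
    have hle : DD cs i' j' ≤ (DD cs i j).comap (MulAut.conj x).toMonoidHom := by
      rw [DD, closure_le]
      rintro d (rfl | hd)
      · show x * cs.simple i' * x⁻¹ ∈ DD cs i j
        have : x * cs.simple i' * x⁻¹ = w * (w'⁻¹ * cs.simple i' * w') * w⁻¹ := by
          rw [hx]; group
        rw [this]; exact hu
      · rw [Set.mem_singleton_iff] at hd
        subst hd
        show x * cs.simple j' * x⁻¹ ∈ DD cs i j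
        have : x * cs.simple j' * x⁻¹ = w * (w'⁻¹ * cs.simple j' * w') * w⁻¹ := by
          rw [hx]; group
        rw [this]; exact hv
    intro d hd
    exact hle hd
  -- minimal double coset representative
  have hex : ∃ n, ∃ a ∈ DD cs i j, ∃ b ∈ DD cs i' j', cs.length (a * x * b) = n :=
    ⟨_, 1, one_mem _, 1, one_mem _, rfl⟩
  obtain ⟨a, ha, b, hb, hlen⟩ := Nat.find_spec hex
  have hmin : ∀ a' ∈ DD cs i j, ∀ b' ∈ DD cs i' j',
      cs.length (a * x * b) ≤ cs.length (a' * x * b') := by
    intro a' ha' b' hb'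
    rw [hlen]
    exact Nat.find_min' hex ⟨a', ha', b', hb', rfl⟩
  set y := a * x * b with hy
  have hyD : ∀ d ∈ DD cs i' j', y * d * y⁻¹ ∈ DD cs i j := by
    intro d hd
    have h1 : y * d * y⁻¹ = a * (x * (b * d * b⁻¹) * x⁻¹) * a⁻¹ := by rw [hy]; group
    rw [h1]
    exact mul_mem (mul_mem ha (hxD _ (mul_mem (mul_mem hb hd) (inv_mem hb)))) (inv_mem ha)
  have hNy' : ∀ t ∈ DD cs i j, eta cs y⁻¹ t ≠ 1 := by
    intro t ht h
    have h1 := length_lt_of_eta cs h
    have h2 : y⁻¹ * t = (t⁻¹ * y)⁻¹ := by group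
    rw [h2, cs.length_inv, cs.length_inv] at h1
    have h3 := hmin (t⁻¹ * a) (mul_mem (inv_mem ht) ha) b hb
    have h4 : t⁻¹ * a * x * b = t⁻¹ * y := by rw [hy]; group
    rw [h4] at h3
    exact absurd h3 (not_le.mpr h1)
  have hstar : ∀ k, cs.simple k ∈ DD cs i' j' →
      y * cs.simple k * y⁻¹ = cs.simple i ∨ y * cs.simple k * y⁻¹ = cs.simple j := by
    intro k hk
    set ρ := y * cs.simple k * y⁻¹ with hρ
    have hρD : ρ ∈ DD cs i j := hyD _ hk
    have hρ1 : ρ ≠ 1 := by
      intro h
      have h1 : cs.simple k = 1 := by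
        have : cs.simple k = y⁻¹ * ρ * y := by rw [hρ]; group
        rw [this, h]; group
      have h2 := cs.length_simple k
      rw [h1, cs.length_one] at h2
      exact absurd h2 (by decide)
    apply eq_simple_of_NN cs hρD hρ1
    -- count
    have hset : NN cs (ρ * y) = NN cs y ∪ (fun t => y⁻¹ * t * y) '' NN cs ρ := by
      ext z
      show eta cs (ρ * y) z = 1 ↔ eta cs y z = 1 ∨ ∃ t, eta cs ρ t = 1 ∧ y⁻¹ * t * y = z
      rw [eta_mul]
      have hdis : ¬ (eta cs y z = 1 ∧ eta cs ρ (y * z * y⁻¹) = 1) := by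
        rintro ⟨h1, h2⟩
        apply hNy' _ (NN_subset_DD cs hρD _ h2)
        rw [eta_inv]
        have : y⁻¹ * (y * z * y⁻¹) * y = z := by group
        rw [this]; exact h1
      have hex : (∃ t, eta cs ρ t = 1 ∧ y⁻¹ * t * y = z) ↔ eta cs ρ (y * z * y⁻¹) = 1 := by
        constructor
        · rintro ⟨t, ht, rfl⟩
          have : y * (y⁻¹ * t * y) * y⁻¹ = t := by group
          rw [this]; exact ht
        · intro h
          exact ⟨_, h, by group⟩
      rw [hex]
      rcases zmod2_cases (eta cs y z) with h1 | h1 <;>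
        rcases zmod2_cases (eta cs ρ (y * z * y⁻¹)) with h2 | h2
      · rw [h1, h2]; decide
      · rw [h1, h2]; decide
      · rw [h1, h2]; decide
      · exact absurd ⟨h1, h2⟩ hdis
    have hdisj : Disjoint (NN cs y) ((fun t => y⁻¹ * t * y) '' NN cs ρ) := by
      rw [Set.disjoint_left]
      rintro z hz ⟨t, ht, rfl⟩
      apply hNy' _ (NN_subset_DD cs hρD _ ht)
      rw [eta_inv]
      exact hz
    have hcard : cs.length (ρ * y) = cs.length y + cs.length ρ := by
      rw [← ncard_NN, hset, Set.ncard_union_eq hdisj (NN_finite cs y) ((NN_finite cs ρ).image _),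
        ncard_NN, Set.ncard_image_of_injective, ncard_NN]
      intro t t' h
      have h' : y⁻¹ * t * y = y⁻¹ * t' * y := h
      exact mul_left_cancel (mul_right_cancel h')
    have h1 : ρ * y = y * cs.simple k := by rw [hρ]; group
    rw [h1] at hcard
    have h2 := cs.length_mul_le y (cs.simple k)
    rw [cs.length_simple] at h2
    omega
  have hi' := hstar i' (left_mem_DD cs i' j')
  have hj' := hstar j' (right_mem_DD cs i' j')
  have hne : y * cs.simple i' * y⁻¹ ≠ y * cs.simple j' * y⁻¹ := by
    intro h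
    exact hij' (simple_injective cs (mul_left_cancel (mul_right_cancel h)))
  -- conversely `y⁻¹ D y ≤ D'`
  have hyD' : ∀ d ∈ DD cs i j, y⁻¹ * d * y ∈ DD cs i' j' := by
    have hle : DD cs i j ≤ (DD cs i' j').comap (MulAut.conj y⁻¹).toMonoidHom := by
      have hkey : ∀ d, (d = y * cs.simple i' * y⁻¹ ∨ d = y * cs.simple j' * y⁻¹) →
          y⁻¹ * d * y ∈ DD cs i' j' := by
        rintro d (rfl | rfl)
        · have : y⁻¹ * (y * cs.simple i' * y⁻¹) * y = cs.simple i' := by group
          rw [this]; exact left_mem_DD cs i' j'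
        · have : y⁻¹ * (y * cs.simple j' * y⁻¹) * y = cs.simple j' := by group
          rw [this]; exact right_mem_DD cs i' j'
      have hconv : ∀ d, (d = cs.simple i ∨ d = cs.simple j) →
          (d = y * cs.simple i' * y⁻¹ ∨ d = y * cs.simple j' * y⁻¹) := by
        intro d hd
        rcases hi' with h1 | h1 <;> rcases hj' with h2 | h2 <;> rcases hd with h3 | h3
        · left; rw [h1, h3]
        · exact absurd (h1.trans h2.symm) hne
        · left; rw [h1, h3]
        · right; rw [h2, h3]
        · right; rw [h2, h3]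
        · left; rw [h1, h3]
        · exact absurd (h1.trans h2.symm) hne
        · left; rw [h1, h3]
      rw [DD, closure_le]
      intro d hd
      have hd' : d = cs.simple i ∨ d = cs.simple j := by
        rcases hd with h | h
        · exact Or.inl h
        · exact Or.inr h
      have h1 := hkey d (hconv d hd')
      show y⁻¹ * d * y⁻¹⁻¹ ∈ DD cs i' j'
      rw [inv_inv]
      exact h1
    intro d hd
    have h1 : y⁻¹ * d * y⁻¹⁻¹ ∈ DD cs i' j' := hle hd
    rwa [inv_inv] at h1
  have hxD' : ∀ d ∈ DD cs i j, x⁻¹ * d * x ∈ DD cs i' j' := by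
    intro d hd
    have h1 : x⁻¹ * d * x = b * (y⁻¹ * (a * d * a⁻¹) * y) * b⁻¹ := by rw [hy]; group
    rw [h1]
    exact mul_mem (mul_mem hb (hyD' _ (mul_mem (mul_mem ha hd) (inv_mem ha)))) (inv_mem hb)
  -- final step
  have hfinal : ∀ k, cs.simple k ∈ DD cs i' j' →
      x * cs.simple k * x⁻¹ = cs.simple i ∨ x * cs.simple k * x⁻¹ = cs.simple j := by
    intro k hk
    set δ := x * cs.simple k * x⁻¹ with hδ
    have hδD : δ ∈ DD cs i j := hxD _ hk
    have hδ1 : δ ≠ 1 := by
      intro h
      have h1 : cs.simple k = 1 := by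
        have : cs.simple k = x⁻¹ * δ * x := by rw [hδ]; group
        rw [this, h]; group
      have h2 := cs.length_simple k
      rw [h1, cs.length_one] at h2
      exact absurd h2 (by decide)
    apply eq_simple_of_NN cs hδD hδ1
    rw [← ncard_NN]
    have hsub : NN cs δ ⊆ {δ} := by
      intro τ hτ
      have hτ1 : eta cs δ τ = 1 := hτ
      have hτr : cs.IsReflection τ := eta_isReflection cs hτ1
      have hτD : τ ∈ DD cs i j := NN_subset_DD cs hδD τ hτ1
      set z := w⁻¹ * τ * w with hz
      set r := w⁻¹ * δ * w with hr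
      have hδr : cs.IsReflection δ := (cs.isReflection_simple k).conj x
      -- eta r z = 1
      have e1 : eta cs (δ * w) z = 1 := by
        rw [eta_mul, hz, eta_of_isMin cs hw hτD hτr, zero_add]
        have : w * (w⁻¹ * τ * w) * w⁻¹ = τ := by group
        rw [this]; exact hτ1
      have e2 : eta cs r z = 1 := by
        have h1 : δ * w = w * r := by rw [hr]; group
        rw [h1, eta_mul] at e1
        have h2 : r * z * r⁻¹ = w⁻¹ * (δ * τ * δ⁻¹) * w := by rw [hr, hz]; group
        rw [h2, eta_of_isMin cs hw (mul_mem (mul_mem hδD hτD) (inv_mem hδD)) (hτr.conj δ),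
          add_zero] at e1
        exact e1
      -- now use `w'`
      set τ' := x⁻¹ * τ * x with hτ'
      have hτ'D : τ' ∈ DD cs i' j' := hxD' _ hτD
      have hτ'r : cs.IsReflection τ' := by
        have := hτr.conj x⁻¹
        rwa [inv_inv] at this
      have hz' : z = w'⁻¹ * τ' * w' := by rw [hz, hτ', hx]; group
      have hr' : r = w'⁻¹ * cs.simple k * w' := by rw [hr, hδ, hx]; group
      have e3 : eta cs (w' * r) z = 1 := by
        rw [eta_mul, e2]
        have h2 : r * z * r⁻¹ = w'⁻¹ * (cs.simple k * τ' * (cs.simple k)⁻¹) * w' := by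
          rw [hr', hz']; group
        rw [h2, eta_of_isMin cs hw' (mul_mem (mul_mem hk hτ'D) (inv_mem hk)) (hτ'r.conj _),
          add_zero]
      have h1 : w' * r = cs.simple k * w' := by rw [hr']; group
      rw [h1, eta_mul, hz', eta_of_isMin cs hw' hτ'D hτ'r, zero_add] at e3
      have h2 : w' * (w'⁻¹ * τ' * w') * w'⁻¹ = τ' := by group
      rw [h2, eta_simple] at e3
      split_ifs at e3 with h3
      · rw [Set.mem_singleton_iff, hδ, ← h3, hτ']
        group
      · exact absurd e3 (by decide)
    calc (NN cs δ).ncard ≤ ({δ} : Set W).ncard := Set.ncard_le_ncard hsub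
      _ = 1 := Set.ncard_singleton δ
  have hi'' := hfinal i' (left_mem_DD cs i' j')
  have hj'' := hfinal j' (right_mem_DD cs i' j')
  have hne' : x * cs.simple i' * x⁻¹ ≠ x * cs.simple j' * x⁻¹ := by
    intro h
    exact hij' (simple_injective cs (mul_left_cancel (mul_right_cancel h)))
  have htr : ∀ k k', x * cs.simple k * x⁻¹ = cs.simple k' →
      w'⁻¹ * cs.simple k * w' = w⁻¹ * cs.simple k' * w := by
    intro k k' h
    rw [← h, hx]; group
  rcases hi'' with h1 | h1 <;> rcases hj'' with h2 | h2
  · exact absurd (h1.trans h2.symm) hne'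
  · left; exact ⟨htr _ _ h1, htr _ _ h2⟩
  · right; exact ⟨htr _ _ h1, htr _ _ h2⟩
  · exact absurd (h1.trans h2.symm) hne'

end Pool.Agent.Work.MP_07fa45_al
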