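import Mathlib
import Pool.Agent.Work.MP_07fa45_al.Canon

set_option autoImplicit false

namespace Pool.Agent.Work.MP_07fa45_al

open Subgroup Finset

variable {B W : Type*} [Group W] {M : CoxeterMatrix B} (cs : CoxeterSystem M W) (c : B → B → ℤˣ)

/-- `(u, v)` is the canonical pair of a rank two finite parabolic subgroup with sign `-1` -/
def CN (u v : W) : Prop := ∃ (w : W) (i j : B), i ≠ j ∧ M i j ≠ 0 ∧ IsMin cs i j w ∧
  u = w⁻¹ * cs.simple i * w ∧ v = w⁻¹ * cs.simple j * w ∧ c i j = -1

open Classical in
/-- indicator -/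
noncomputable def ind (u v : W) : ZMod 2 := if CN cs c u v ∧ WellOrderingRel u v then 1 else 0

theorem ind_self (u : W) : ind cs c u u = 0 := by
  classical
  rw [ind, if_neg]
  rintro ⟨_, h⟩
  exact irrefl u h

/-- the cochain -/
noncomputable def theta (x r : W) : ZMod 2 := ∑ᶠ v, eta cs x v * ind cs c r v

theorem support_finite (x r : W) : (Function.support fun v => eta cs x v * ind cs c r v).Finite := by
  refine (NN_finite cs x).subset ?_
  intro v hv
  rcases zmod2_cases (eta cs x v) with h | h
  · exact absurd (by simp [h]) hv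
  · exact h

open Classical in
theorem eta_simple_mul (k : B) (x v : W) :
    eta cs (cs.simple k * x) v = eta cs x v + if v = x⁻¹ * cs.simple k * x then 1 else 0 := by
  rw [eta_mul, eta_simple]
  congr 1
  have : (x * v * x⁻¹ = cs.simple k) ↔ (v = x⁻¹ * cs.simple k * x) := by
    constructor
    · intro h; rw [← h]; group
    · intro h; rw [h]; group
  simp only [this]

theorem theta_flip (k : B) (x : W) :
    theta cs c (cs.simple k * x) (x⁻¹ * cs.simple k * x) = theta cs c x (x⁻¹ * cs.simple k * x) := by
  classical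
  rw [theta, theta]
  congr 1
  funext v
  rw [eta_simple_mul]
  split_ifs with h
  · rw [← h, ind_self, mul_zero, mul_zero]
  · rw [add_zero]

/-- the new permutations -/
noncomputable def tau (k : B) : Equiv.Perm (W × ZMod 2) :=
  Function.Involutive.toPerm
    (fun p => (cs.simple k * p.1, p.2 + theta cs c p.1 (p.1⁻¹ * cs.simple k * p.1))) (by
      rintro ⟨x, e⟩
      have h1 : cs.simple k * (cs.simple k * x) = x := by
        rw [← mul_assoc, cs.simple_mul_simple_self, one_mul]
      have h2 : (cs.simple k * x)⁻¹ * cs.simple k * (cs.simple k * x) = x⁻¹ * cs.simple k * x := by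
        rw [mul_inv_rev, cs.inv_simple]
        calc x⁻¹ * cs.simple k * cs.simple k * (cs.simple k * x)
            = x⁻¹ * (cs.simple k * cs.simple k) * (cs.simple k * x) := by group
          _ = _ := by rw [cs.simple_mul_simple_self]; group
      refine Prod.ext h1 ?_
      show e + theta cs c x (x⁻¹ * cs.simple k * x) + theta cs c (cs.simple k * x)
        ((cs.simple k * x)⁻¹ * cs.simple k * (cs.simple k * x)) = e
      rw [h2, theta_flip, add_assoc, zmod2_add_self, add_zero])

theorem tau_apply (k : B) (x : W) (e : ZMod 2) : tau cs c k (x, e) =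
    (cs.simple k * x, e + theta cs c x (x⁻¹ * cs.simple k * x)) := rfl

/-- the walls crossed -/
def rw' (i j : B) (w : W) (n : ℕ) : W :=
  w⁻¹ * (((cs.simple i * cs.simple j) ^ n)⁻¹ * cs.simple j) * w

/-- the chambers met -/
def xs (i j : B) (w : W) : ℕ → W
  | 0 => w
  | n + 1 => xs i j w n * rw' cs i j w n

theorem simple_mul_pow (i j : B) (k : ℕ) : cs.simple j * (cs.simple i * cs.simple j) ^ k =
    ((cs.simple i * cs.simple j) ^ k)⁻¹ * cs.simple j := by
  set a := cs.simple i with ha
  set b := cs.simple j with hb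
  have hainv : a⁻¹ = a := cs.inv_simple i
  have hbinv : b⁻¹ = b := cs.inv_simple j
  induction k with
  | zero => simp
  | succ k ih =>
    calc b * (a * b) ^ (k + 1) = (b * (a * b) ^ k) * (a * b) := by rw [pow_succ]; group
      _ = ((a * b) ^ k)⁻¹ * (b * a) * b := by rw [ih]; group
      _ = ((a * b) ^ k)⁻¹ * (a * b)⁻¹ * b := by rw [mul_inv_rev a b, hainv, hbinv]
      _ = ((a * b) ^ (k + 1))⁻¹ * b := by rw [pow_succ', mul_inv_rev (a * b) ((a * b) ^ k)]

theorem xs_two (i j : B) (w : W) (l : ℕ) :
    xs cs i j w (2 * l) = (cs.simple i * cs.simple j) ^ l * w ∧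
    xs cs i j w (2 * l + 1) = cs.simple j * (cs.simple i * cs.simple j) ^ l * w := by
  induction l with
  | zero =>
    constructor
    · show w = _
      simp
    · show w * rw' cs i j w 0 = _
      rw [rw', pow_zero]
      group
  | succ l ih =>
    have h1 : xs cs i j w (2 * (l + 1)) = (cs.simple i * cs.simple j) ^ (l + 1) * w := by
      show xs cs i j w (2 * l + 1) * rw' cs i j w (2 * l + 1) = _
      rw [ih.2, rw']
      have h2 : ((cs.simple i * cs.simple j) ^ (2 * l + 1))⁻¹ * cs.simple j =
          cs.simple j * (cs.simple i * cs.simple j) ^ (2 * l + 1) := (simple_mul_pow cs i j _).symm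
      have h3 : cs.simple j * (cs.simple i * cs.simple j) ^ l =
        ((cs.simple i * cs.simple j) ^ l)⁻¹ * cs.simple j := simple_mul_pow cs i j l
      rw [h2, h3]
      calc ((cs.simple i * cs.simple j) ^ l)⁻¹ * cs.simple j * w *
            (w⁻¹ * (cs.simple j * (cs.simple i * cs.simple j) ^ (2 * l + 1)) * w)
          = ((cs.simple i * cs.simple j) ^ l)⁻¹ * (cs.simple j * cs.simple j) *
            (cs.simple i * cs.simple j) ^ (2 * l + 1) * w := by group
        _ = ((cs.simple i * cs.simple j) ^ l)⁻¹ *
            (cs.simple i * cs.simple j) ^ (l + (l + 1)) * w := by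
            rw [cs.simple_mul_simple_self, mul_one]
            congr 3
            omega
        _ = _ := by rw [pow_add, inv_mul_cancel_left]
    refine ⟨h1, ?_⟩
    show xs cs i j w (2 * (l + 1)) * rw' cs i j w (2 * (l + 1)) = _
    have h2 := simple_mul_pow cs i j (l + 1)
    rw [h1, rw', two_mul (l + 1), pow_add _ (l + 1) (l + 1), mul_inv_rev, mul_assoc _ _ (cs.simple j),
      ← h2]
    generalize (cs.simple i * cs.simple j) ^ (l + 1) = g
    group

theorem xs_step (i j : B) (w : W) (n : ℕ) : ∃ k, (k = i ∨ k = j) ∧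
    (k = if n % 2 = 0 then j else i) ∧
    xs cs i j w (n + 1) = cs.simple k * xs cs i j w n ∧
    (xs cs i j w n)⁻¹ * cs.simple k * xs cs i j w n = rw' cs i j w n := by
  have key : ∀ k, xs cs i j w (n + 1) = cs.simple k * xs cs i j w n →
      (xs cs i j w n)⁻¹ * cs.simple k * xs cs i j w n = rw' cs i j w n := by
    intro k hk
    have h1 : xs cs i j w (n + 1) = xs cs i j w n * rw' cs i j w n := rfl
    rw [mul_assoc, ← hk, h1, inv_mul_cancel_left]
  rcases Nat.even_or_odd' n with ⟨l, hl | hl⟩
  · have h1 : xs cs i j w (n + 1) = cs.simple j * xs cs i j w n := by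
      rw [hl, (xs_two cs i j w l).2, (xs_two cs i j w l).1, mul_assoc]
    exact ⟨j, Or.inr rfl, by rw [if_pos (by omega)], h1, key j h1⟩
  · have h1 : xs cs i j w (n + 1) = cs.simple i * xs cs i j w n := by
      have h2 : xs cs i j w (2 * l + 1 + 1) = xs cs i j w (2 * (l + 1)) := by
        congr 1
      rw [hl, h2, (xs_two cs i j w (l + 1)).1, (xs_two cs i j w l).2, pow_succ']
      group
    exact ⟨i, Or.inl rfl, by rw [if_neg (by omega)], h1, key i h1⟩

theorem tau_mul_pow (i j : B) (k : ℕ) (w : W) (e : ZMod 2) :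
    ((tau cs c i * tau cs c j) ^ k) (w, e) =
      (xs cs i j w (2 * k), e + ∑ n ∈ range (2 * k), theta cs c (xs cs i j w n) (rw' cs i j w n)) := by
  induction k with
  | zero => simp [xs]
  | succ k ih =>
    rw [pow_succ', Equiv.Perm.mul_apply, ih, Equiv.Perm.mul_apply, tau_apply, tau_apply]
    obtain ⟨k1, _, h1, h2, h3⟩ := xs_step cs i j w (2 * k)
    obtain ⟨k2, _, h4, h5, h6⟩ := xs_step cs i j w (2 * k + 1)
    rw [if_pos (by omega)] at h1
    rw [if_neg (by omega)] at h4
    subst h1
    subst h4
    rw [h3, ← h2, h6, ← h5]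
    refine Prod.ext rfl ?_
    rw [show 2 * (k + 1) = 2 * k + 1 + 1 by ring, sum_range_succ, sum_range_succ]
    show e + _ + _ + _ = _
    ring

open Classical in
theorem eta_xs (i j : B) (w v : W) (n l : ℕ) :
    eta cs (xs cs i j w (n + l)) v = eta cs (xs cs i j w n) v +
      ∑ t ∈ range l, if v = rw' cs i j w (n + t) then 1 else 0 := by
  induction l with
  | zero => simp
  | succ l ih =>
    obtain ⟨k, _, _, h2, h3⟩ := xs_step cs i j w (n + l)
    rw [← add_assoc, h2, eta_simple_mul, h3, ih, sum_range_succ, add_assoc]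

theorem sum_periodic (f : ℕ → ZMod 2) (m : ℕ) (hf : ∀ n, f (n + m) = f n) (n : ℕ) :
    ∑ t ∈ range m, f (n + t) = ∑ t ∈ range m, f t := by
  induction n with
  | zero => simp
  | succ n ih =>
    rw [← ih]
    have h1 := sum_range_succ (fun t => f (n + t)) m
    have h2 := sum_range_succ' (fun t => f (n + t)) m
    simp only [add_zero] at h2
    rw [h1, hf n] at h2
    have h3 := add_right_cancel h2
    rw [h3]
    apply sum_congr rfl
    intro t _
    congr 1
    ring

theorem theta_pair (i j : B) (w : W) (n : ℕ) (r : W) :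
    theta cs c (xs cs i j w n) r + theta cs c (xs cs i j w (n + M i j)) r =
      ∑ t ∈ range (M i j), ind cs c r (rw' cs i j w t) := by
  classical
  rw [theta, theta, ← finsum_add_distrib (support_finite cs c _ _) (support_finite cs c _ _)]
  have h1 : ∀ v, eta cs (xs cs i j w n) v * ind cs c r v +
      eta cs (xs cs i j w (n + M i j)) v * ind cs c r v =
      ∑ t ∈ range (M i j), if v = rw' cs i j w (n + t) then ind cs c r v else 0 := by
    intro v
    rw [eta_xs, ← add_mul, ← add_assoc, zmod2_add_self, zero_add, sum_mul]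
    apply sum_congr rfl
    intro t _
    split_ifs <;> simp
  simp_rw [h1]
  rw [finsum_sum_comm]
  · have h2 : ∀ t ∈ range (M i j), (∑ᶠ v, if v = rw' cs i j w (n + t) then ind cs c r v else 0) =
        ind cs c r (rw' cs i j w (n + t)) := by
      intro t _
      rw [finsum_eq_single _ (rw' cs i j w (n + t))]
      · rw [if_pos rfl]
      · intro v hv
        rw [if_neg hv]
    rw [sum_congr rfl h2]
    apply sum_periodic (fun t => ind cs c r (rw' cs i j w t))
    intro t
    simp only [rw']
    rw [pow_add, cs.simple_mul_simple_pow, mul_one]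
  · intro t _
    refine (Set.finite_singleton (rw' cs i j w (n + t))).subset ?_
    intro v hv
    by_contra hne
    apply hv
    exact if_neg hne

end Pool.Agent.Work.MP_07fa45_al
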