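import Mathlib
import Pool.Agent.Work.MP_07fa45_al.Cover

set_option autoImplicit false

namespace Pool.Agent.Work.MP_07fa45_al

open Subgroup Finset

variable {B W : Type*} [Group W] {M : CoxeterMatrix B} (cs : CoxeterSystem M W) (c : B → B → ℤˣ)

theorem simple_mul_zpow (i j : B) (z : ℤ) : cs.simple j * (cs.simple i * cs.simple j) ^ z =
    (cs.simple i * cs.simple j) ^ (-z) * cs.simple j := by
  have h1 : cs.simple j * (cs.simple i * cs.simple j) * (cs.simple j)⁻¹ =
      (cs.simple i * cs.simple j)⁻¹ := by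
    rw [mul_inv_rev, cs.inv_simple, cs.inv_simple]
    calc cs.simple j * (cs.simple i * cs.simple j) * cs.simple j
        = cs.simple j * cs.simple i * (cs.simple j * cs.simple j) := by group
      _ = _ := by rw [cs.simple_mul_simple_self, mul_one]
  have h2 : cs.simple j * (cs.simple i * cs.simple j) ^ z * (cs.simple j)⁻¹ =
      (cs.simple i * cs.simple j) ^ (-z) := by
    rw [← conj_zpow, h1, inv_zpow, zpow_neg]
  rw [← h2]
  group

theorem mem_DD_form {i j : B} {d : W} (hd : d ∈ DD cs i j) :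
    ∃ z : ℤ, d = (cs.simple i * cs.simple j) ^ z ∨
      d = (cs.simple i * cs.simple j) ^ z * cs.simple j := by
  induction hd using closure_induction with
  | mem x hx =>
    rcases hx with rfl | hx
    · refine ⟨1, Or.inr ?_⟩
      rw [zpow_one, mul_assoc, cs.simple_mul_simple_self, mul_one]
    · rw [Set.mem_singleton_iff] at hx
      subst hx
      exact ⟨0, Or.inr (by simp)⟩
  | one => exact ⟨0, Or.inl (by simp)⟩
  | mul x y _ _ hx hy =>
    obtain ⟨z, hz⟩ := hx
    obtain ⟨w, hw⟩ := hy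
    rcases hz with rfl | rfl <;> rcases hw with rfl | rfl
    · exact ⟨z + w, Or.inl (zpow_add _ _ _).symm⟩
    · exact ⟨z + w, Or.inr (by rw [zpow_add, mul_assoc])⟩
    · refine ⟨z + -w, Or.inr ?_⟩
      rw [mul_assoc, simple_mul_zpow, zpow_add, mul_assoc]
    · refine ⟨z + -w, Or.inl ?_⟩
      rw [mul_assoc, ← mul_assoc (cs.simple j), simple_mul_zpow, mul_assoc _ (cs.simple j),
        cs.simple_mul_simple_self, mul_one, zpow_add]
  | inv x _ hx =>
    obtain ⟨z, hz⟩ := hx
    rcases hz with rfl | rfl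
    · exact ⟨-z, Or.inl (zpow_neg _ _).symm⟩
    · refine ⟨z, Or.inr ?_⟩
      rw [mul_inv_rev, cs.inv_simple, ← zpow_neg, simple_mul_zpow, neg_neg]

theorem reflection_form {i j : B} (h0 : M i j ≠ 0) {t : W} (ht : t ∈ DD cs i j)
    (htr : cs.IsReflection t) :
    ∃ n < M i j, t = ((cs.simple i * cs.simple j) ^ n)⁻¹ * cs.simple j := by
  obtain ⟨z, hz⟩ := mem_DD_form cs ht
  have hpar : ∀ z : ℤ, cs.lengthParity ((cs.simple i * cs.simple j) ^ z) = 1 := by
    intro z
    rw [map_zpow, map_mul, cs.lengthParity_simple, cs.lengthParity_simple]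
    have : (Multiplicative.ofAdd (1 : ZMod 2) * Multiplicative.ofAdd (1 : ZMod 2)) = 1 := by
      decide
    rw [this, one_zpow]
  rcases hz with h | h
  · exfalso
    have h1 := hpar z
    rw [← h, cs.lengthParity_eq_ofAdd_length] at h1
    have h2 := htr.odd_length
    have h3 : ((cs.length t : ℕ) : ZMod 2) = 1 := by
      obtain ⟨k, hk⟩ := h2
      rw [hk]
      push_cast
      have : (2 : ZMod 2) = 0 := by decide
      rw [this]; ring
    rw [h3] at h1
    exact absurd h1 (by decide)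
  · have hm : (0 : ℤ) < M i j := by
      have := Nat.pos_of_ne_zero h0
      exact_mod_cast this
    have h1 : 0 ≤ (-z) % (M i j : ℤ) := Int.emod_nonneg _ hm.ne'
    have h2 : (-z) % (M i j : ℤ) < M i j := Int.emod_lt_of_pos _ hm
    refine ⟨((-z) % (M i j : ℤ)).toNat, by omega, ?_⟩
    rw [h]
    congr 1
    rw [← zpow_natCast, Int.toNat_of_nonneg h1, ← zpow_neg]
    have h3 : z = -((-z) % (M i j : ℤ)) + (M i j : ℤ) * (-((-z) / (M i j : ℤ))) := by
      have := Int.emod_add_mul_ediv (-z) (M i j : ℤ)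
      linarith
    conv_lhs => rw [h3]
    rw [zpow_add, zpow_mul, zpow_natCast, cs.simple_mul_simple_pow, one_zpow, mul_one]

theorem rw'_injOn {i j : B} (hij : i ≠ j) (h0 : M i j ≠ 0) (w : W) {n l : ℕ} (hn : n < M i j)
    (hl : l < M i j) (h : rw' cs i j w n = rw' cs i j w l) : n = l := by
  have h1 : (cs.simple i * cs.simple j) ^ n = (cs.simple i * cs.simple j) ^ l := by
    simp only [rw'] at h
    exact inv_injective (mul_right_cancel (mul_left_cancel (mul_right_cancel h)))
  rcases lt_trichotomy n l with h2 | h2 | h2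
  · exfalso
    apply simple_mul_simple_pow_ne_one cs hij h0 (k := l - n) (by omega) (by omega)
    have h3 : (cs.simple i * cs.simple j) ^ l =
        (cs.simple i * cs.simple j) ^ n * (cs.simple i * cs.simple j) ^ (l - n) := by
      rw [← pow_add]; congr 1; omega
    rw [← h1] at h3
    exact (mul_eq_left.mp h3.symm)
  · exact h2
  · exfalso
    apply simple_mul_simple_pow_ne_one cs hij h0 (k := n - l) (by omega) (by omega)
    have h3 : (cs.simple i * cs.simple j) ^ n =
        (cs.simple i * cs.simple j) ^ l * (cs.simple i * cs.simple j) ^ (n - l) := by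
      rw [← pow_add]; congr 1; omega
    rw [h1] at h3
    exact (mul_eq_left.mp h3.symm)

theorem DD_symm (i j : B) : DD cs i j = DD cs j i := by
  rw [DD, DD, Set.pair_comm]

/-- the sign class function condition -/
def IsSignChoice : Prop :=
  (∀ i j, i ≠ j → M i j ≠ 0 → c i j = c j i) ∧
  (∀ i j i' j', i ≠ j → M i j ≠ 0 → i' ≠ j' → M i' j' ≠ 0 →
    (∃ g : W, g * cs.simple i * g⁻¹ = cs.simple i' ∧ g * cs.simple j * g⁻¹ = cs.simple j') →
    c i j = c i' j')

theorem ind_sum (hc : IsSignChoice cs c) {i j : B} (hij : i ≠ j) (h0 : M i j ≠ 0) (w : W) :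
    ∑ n ∈ range (M i j), ∑ l ∈ range (M i j), ind cs c (rw' cs i j w n) (rw' cs i j w l) =
      if c i j = -1 then 1 else 0 := by
  classical
  obtain ⟨d, hd, hmin⟩ := exists_isMin cs i j w
  set w₀ := d * w with hw₀
  set u₀ := w₀⁻¹ * cs.simple i * w₀ with hu₀
  set v₀ := w₀⁻¹ * cs.simple j * w₀ with hv₀
  have huv : u₀ ≠ v₀ := by
    intro h
    exact hij (simple_injective cs (mul_left_cancel (mul_right_cancel h)))
  -- u₀ and v₀ are among the walls
  have hwall : ∀ k, cs.simple k ∈ DD cs i j → ∃ n < M i j,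
      rw' cs i j w n = w₀⁻¹ * cs.simple k * w₀ := by
    intro k hk
    obtain ⟨n, hn, h⟩ := reflection_form cs h0 (t := d⁻¹ * cs.simple k * d)
      (mul_mem (mul_mem (inv_mem hd) hk) hd) (by
        have := (cs.isReflection_simple k).conj d⁻¹
        rwa [inv_inv] at this)
    refine ⟨n, hn, ?_⟩
    rw [rw', ← h, hw₀]
    group
  obtain ⟨nu, hnu, hnu'⟩ := hwall i (left_mem_DD cs i j)
  obtain ⟨nv, hnv, hnv'⟩ := hwall j (right_mem_DD cs i j)
  rw [← hu₀] at hnu'
  rw [← hv₀] at hnv'
  -- canonical pairs among walls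
  have hmemD : ∀ n, w₀ * rw' cs i j w n * w₀⁻¹ ∈ DD cs i j := by
    intro n
    have h1 : w₀ * rw' cs i j w n * w₀⁻¹ =
        d * (((cs.simple i * cs.simple j) ^ n)⁻¹ * cs.simple j) * d⁻¹ := by
      rw [rw', hw₀]; group
    rw [h1]
    exact mul_mem (mul_mem hd (mul_mem (inv_mem (pow_mem (mul_mem (left_mem_DD cs i j)
      (right_mem_DD cs i j)) n)) (right_mem_DD cs i j))) (inv_mem hd)
  have hcanon : ∀ n < M i j, ∀ l < M i j, CN cs c (rw' cs i j w n) (rw' cs i j w l) →
      ((n = nu ∧ l = nv) ∨ (n = nv ∧ l = nu)) ∧ c i j = -1 := by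
    rintro n hn l hl ⟨w', i', j', hij', h0', hmin', hu', hv', hc'⟩
    have h1 := hmemD n
    have h2 := hmemD l
    rw [hu'] at h1
    rw [hv'] at h2
    rcases canon_unique cs hij' hmin hmin' h1 h2 with ⟨h3, h4⟩ | ⟨h3, h4⟩
    · refine ⟨Or.inl ⟨?_, ?_⟩, ?_⟩
      · apply rw'_injOn cs hij h0 w hn hnu
        rw [hu', h3, hnu']
      · apply rw'_injOn cs hij h0 w hl hnv
        rw [hv', h4, hnv']
      · rw [← hc']
        apply hc.2 i j i' j' hij h0 hij' h0'
        refine ⟨w' * w₀⁻¹, ?_, ?_⟩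
        · have : w' * w₀⁻¹ * cs.simple i * (w' * w₀⁻¹)⁻¹ = w' * (w₀⁻¹ * cs.simple i * w₀) * w'⁻¹ := by
            group
          rw [this, ← h3]; group
        · have : w' * w₀⁻¹ * cs.simple j * (w' * w₀⁻¹)⁻¹ = w' * (w₀⁻¹ * cs.simple j * w₀) * w'⁻¹ := by
            group
          rw [this, ← h4]; group
    · refine ⟨Or.inr ⟨?_, ?_⟩, ?_⟩
      · apply rw'_injOn cs hij h0 w hn hnv
        rw [hu', h3, hnv']
      · apply rw'_injOn cs hij h0 w hl hnu
        rw [hv', h4, hnu']
      · rw [hc.1 i j hij h0, ← hc']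
        apply hc.2 j i i' j' hij.symm (by rwa [M.symmetric]) hij' h0'
        refine ⟨w' * w₀⁻¹, ?_, ?_⟩
        · have : w' * w₀⁻¹ * cs.simple j * (w' * w₀⁻¹)⁻¹ = w' * (w₀⁻¹ * cs.simple j * w₀) * w'⁻¹ := by
            group
          rw [this, ← h3]; group
        · have : w' * w₀⁻¹ * cs.simple i * (w' * w₀⁻¹)⁻¹ = w' * (w₀⁻¹ * cs.simple i * w₀) * w'⁻¹ := by
            group
          rw [this, ← h4]; group
  by_cases hcm : c i j = -1
  swap
  · rw [if_neg hcm]
    apply sum_eq_zero
    intro n hn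
    apply sum_eq_zero
    intro l hl
    rw [ind, if_neg]
    rintro ⟨h, _⟩
    exact hcm (hcanon n (mem_range.mp hn) l (mem_range.mp hl) h).2
  · rw [if_pos hcm]
    have hnuv : nu ≠ nv := by
      rintro rfl
      exact huv (hnu'.symm.trans hnv')
    have hCN1 : CN cs c u₀ v₀ := ⟨w₀, i, j, hij, h0, hmin, hu₀, hv₀, hcm⟩
    have hCN2 : CN cs c v₀ u₀ := by
      refine ⟨w₀, j, i, hij.symm, by rwa [M.symmetric], ?_, hv₀, hu₀, ?_⟩
      · intro e he
        rw [DD_symm] at he
        exact hmin e he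
      · rw [← hc.1 i j hij h0, hcm]
    rw [← sum_product' (range (M i j)) (range (M i j))
      (fun n l => ind cs c (rw' cs i j w n) (rw' cs i j w l))]
    have hsub : ({(nu, nv), (nv, nu)} : Finset (ℕ × ℕ)) ⊆ range (M i j) ×ˢ range (M i j) := by
      intro p hp
      simp only [mem_insert, mem_singleton] at hp
      rcases hp with rfl | rfl <;> simp [hnu, hnv]
    rw [← sum_subset hsub, sum_pair, hnu', hnv']
    · rw [ind, ind]
      rcases trichotomous_of WellOrderingRel u₀ v₀ with h | h | h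
      · have h' : ¬ WellOrderingRel v₀ u₀ := asymm h
        rw [if_pos ⟨hCN1, h⟩, if_neg (fun hh => h' hh.2), add_zero]
      · exact absurd h huv
      · have h' : ¬ WellOrderingRel u₀ v₀ := asymm h
        rw [if_neg (show ¬ (CN cs c u₀ v₀ ∧ WellOrderingRel u₀ v₀) from fun hh => h' hh.2),
          if_pos (show CN cs c v₀ u₀ ∧ WellOrderingRel v₀ u₀ from ⟨hCN2, h⟩), zero_add]
    · intro h
      exact hnuv (congrArg Prod.fst h)
    · rintro ⟨n, l⟩ hp hnot
      rw [mem_product, mem_range, mem_range] at hp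
      rw [ind, if_neg]
      rintro ⟨h, _⟩
      apply hnot
      rcases (hcanon n hp.1 l hp.2 h).1 with ⟨rfl, rfl⟩ | ⟨rfl, rfl⟩ <;> simp

open Classical in
/-- the braid relation up to sign -/
theorem tau_braid (hc : IsSignChoice cs c) {i j : B} (hij : i ≠ j) (h0 : M i j ≠ 0)
    (w : W) (e : ZMod 2) :
    ((tau cs c i * tau cs c j) ^ (M i j)) (w, e) = (w, e + if c i j = -1 then 1 else 0) := by
  rw [tau_mul_pow]
  refine Prod.ext ?_ ?_
  · show xs cs i j w (2 * M i j) = w
    rw [(xs_two cs i j w (M i j)).1, cs.simple_mul_simple_pow, one_mul]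
  · show e + _ = _
    congr 1
    rw [two_mul, sum_range_add, ← sum_add_distrib, ← ind_sum cs c hc hij h0 w]
    apply sum_congr rfl
    intro n _
    rw [← theta_pair cs c i j w n, add_comm (M i j) n]
    congr 2
    simp only [rw']
    rw [pow_add, cs.simple_mul_simple_pow, mul_one]

end Pool.Agent.Work.MP_07fa45_al
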